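import Pool.Agent.Lib.MP_1ccaae_co.Ramsey

/-!
Three colours: `s_3(3) ≤ 16 ≤ s_3(k)` for all `k ≥ 4`; in particular `s_3(3) ≤ s_3(4)`.
-/

set_option autoImplicit false
open scoped Classical

namespace Pool.Agent.Results.MP_1ccaae_co.ThreeColoursTriangle

open Pool.Agent.Lib.MP_1ccaae_co

/-- Some graph which is `3`-Ramsey-minimal for the triangle has minimum degree at most 16, and every
graph which is `3`-Ramsey-minimal for a clique `K_(k+1)`, `k ≥ 3`, has minimum degree at least 16. -/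
theorem result :
    (∃ m : ℕ, ∃ H : SimpleGraph (Fin m), RamseyMinimal 3 3 H ∧ H.minDegree ≤ 16) ∧
    ∀ k : ℕ, 3 ≤ k → ∀ n : ℕ, ∀ G : SimpleGraph (Fin n), RamseyMinimal 3 (k + 1) G →
      16 ≤ G.minDegree := by
  refine ⟨?_, ?_⟩
  · obtain ⟨m, H, hH, hd⟩ := exists_minimal (r := 3) (k := 3) (by norm_num) (by norm_num) arrows17
    exact ⟨m, H, hH, by omega⟩
  · intro k hk n G hG
    obtain ⟨s, hs, -⟩ := hG.1 (fun _ => 0)
    obtain ⟨v, -⟩ : s.Nonempty := Finset.card_pos.1 (by omega)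
    haveI : Nonempty (Fin n) := ⟨v⟩
    exact G.le_minDegree_of_forall_le_degree 16 (fun v => degree_ge hk hG v)

end Pool.Agent.Results.MP_1ccaae_co.ThreeColoursTriangle
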